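import Pool.Agent.H18.Dim3

set_option autoImplicit false

namespace Pool.Agent.Results.MP_d9d12d_lc.CH

/-- Hausdorff dimension in `2^ω` for the metric `d(x,y) = 2^{-n}`, `n` the first index where `x`
and `y` differ (Mathlib's `PiNat.metricSpace`). -/
noncomputable def dim (A : Set (ℕ → Bool)) : ENNReal :=
  @dimH (ℕ → Bool) (@MetricSpace.toEMetricSpace _ (PiNat.metricSpace (E := fun _ => Bool))) A

/-- the preimage of every open set is a Borel set -/
def IsBorel (f : (ℕ → Bool) → ℕ → Bool) : Prop :=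
  ∀ U, IsOpen U → @MeasurableSet _ (borel (ℕ → Bool)) (f ⁻¹' U)

theorem result (hCH : Cardinal.continuum.{0} = Cardinal.aleph 1) (s : ℝ) (h0 : 0 ≤ s)
    (h1 : s ≤ 1) : ∃ E : Set (ℕ → Bool), dim E = ENNReal.ofReal s ∧
      ∀ f, IsBorel f → dim (f '' E) ≤ ENNReal.ofReal s := by
  obtain ⟨X, x1, x2⟩ := Pool.Agent.H18.Dim.main hCH h0 h1
  refine ⟨X, x1, fun f hf => x2 f (measurable_of_isOpen fun U hU => ?_)⟩
  have := hf U hU
  rwa [← BorelSpace.measurable_eq] at this

end Pool.Agent.Results.MP_d9d12d_lc.CH
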